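import Pool.Agent.SZT.StmtsC

set_option autoImplicit false

/-! # SZT, row PFS (the product formula for `Lv`). -/

namespace Pool.Agent.SZT.H86

open Polynomial NumberField H58Q

/-- The product formula in logarithms, for every finite set of finite places which contains
the exceptions. -/
theorem pfs_log (K : Type) [Field K] [NumberField K] {a : K} (ha : a ≠ 0) :
    ∃ T₀ : Finset (FinitePlace K), ∀ T : Finset (FinitePlace K), T₀ ⊆ T →
      ∑ v : InfinitePlace K, (v.mult : ℝ) * Real.log (v a) + ∑ v ∈ T, Real.log (v a) = 0 := by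
  classical
  have hfin : (fun w : FinitePlace K => w a).HasFiniteMulSupport :=
    FinitePlace.hasFiniteMulSupport ha
  have hfin' : (Function.mulSupport (fun w : FinitePlace K => w a)).Finite := hfin
  refine ⟨hfin'.toFinset, ?_⟩
  intro T hT
  have hprod := prod_abs_eq_one (K := K) ha
  have hT' : Function.mulSupport (fun w : FinitePlace K => w a) ⊆ (T : Set (FinitePlace K)) := by
    intro w hw
    have : w ∈ hfin'.toFinset := (Set.Finite.mem_toFinset hfin').mpr hw
    exact hT this
  rw [finprod_eq_prod_of_mulSupport_subset _ hT'] at hprod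
  have hvinf : ∀ v : InfinitePlace K, v a ≠ 0 := fun v => (InfinitePlace.pos_iff.mpr ha).ne'
  have hvfin : ∀ v : FinitePlace K, v a ≠ 0 := fun v => (FinitePlace.pos_iff.mpr ha).ne'
  have hlog := congrArg Real.log hprod
  rw [Real.log_one, Real.log_mul (Finset.prod_ne_zero_iff.mpr fun v _ => pow_ne_zero _ (hvinf v))
    (Finset.prod_ne_zero_iff.mpr fun v _ => hvfin v),
    Real.log_prod (fun v _ => pow_ne_zero _ (hvinf v)), Real.log_prod (fun v _ => hvfin v)] at hlog
  simp only [Real.log_pow] at hlog
  exact hlog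

theorem pfs : PfsStatement := by
  intro K _ _ f A U M hAf hAU
  classical
  have h4 : IsUnit (4 : K[X]) := by
    have : (4 : K[X]) = C (4 : K) := (map_ofNat C 4).symm
    rw [this]
    exact isUnit_C.mpr (by norm_num)
  have h2 : IsUnit (2 : K[X]) := by
    have : (2 : K[X]) = C (2 : K) := (map_ofNat C 2).symm
    rw [this]
    exact isUnit_C.mpr (by norm_num)
  have hc1 : IsCoprime A (4 * f) := (isCoprime_mul_unit_left_right h4 A f).mpr hAf
  have hc2 : IsCoprime A (2 * U) := (isCoprime_mul_unit_left_right h2 A U).mpr hAU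
  have ha : resultant A (4 * f) ≠ 0 := resultant_ne_zero _ _ hc1
  have hb : resultant A (2 * U) ≠ 0 := resultant_ne_zero _ _ hc2
  obtain ⟨T₁, hT₁⟩ := pfs_log K ha
  obtain ⟨T₂, hT₂⟩ := pfs_log K hb
  refine ⟨T₁ ∪ T₂, ?_⟩
  intro T hT
  have e1 := hT₁ T (Finset.union_subset_left hT)
  have e2 := hT₂ T (Finset.union_subset_right hT)
  have key : ∑ v : InfinitePlace K, (v.mult : ℝ) * Lv v f A U M + ∑ v ∈ T, Lv v f A U M
      = (1 / 2) * (∑ v : InfinitePlace K, (v.mult : ℝ) * Real.log (v (resultant A (4 * f)))
            + ∑ v ∈ T, Real.log (v (resultant A (4 * f))))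
        - (1 / M) * (∑ v : InfinitePlace K, (v.mult : ℝ) * Real.log (v (resultant A (2 * U)))
            + ∑ v ∈ T, Real.log (v (resultant A (2 * U)))) := by
    unfold Lv
    have s1 : ∑ v : InfinitePlace K, (v.mult : ℝ) *
        ((1 / 2) * Real.log (v (resultant A (4 * f)))
          - (1 / M) * Real.log (v (resultant A (2 * U))))
        = (1 / 2) * (∑ v : InfinitePlace K, (v.mult : ℝ) * Real.log (v (resultant A (4 * f))))
          - (1 / M) * (∑ v : InfinitePlace K,
              (v.mult : ℝ) * Real.log (v (resultant A (2 * U)))) := by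
      rw [Finset.mul_sum, Finset.mul_sum, ← Finset.sum_sub_distrib]
      refine Finset.sum_congr rfl fun v _ => ?_
      ring
    have s2 : ∑ v ∈ T, ((1 / 2) * Real.log (v (resultant A (4 * f)))
          - (1 / M) * Real.log (v (resultant A (2 * U))))
        = (1 / 2) * (∑ v ∈ T, Real.log (v (resultant A (4 * f))))
          - (1 / M) * (∑ v ∈ T, Real.log (v (resultant A (2 * U)))) := by
      rw [Finset.mul_sum, Finset.mul_sum, ← Finset.sum_sub_distrib]
    rw [s1, s2]
    ring
  rw [key, e1, e2]
  simp

end Pool.Agent.SZT.H86
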