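import Pool.Agent.SZT.StmtsC

set_option autoImplicit false

/-! # SZT, row QVN (valuations of a number field at a finite place). -/

namespace Pool.Agent.SZT.H86

open Polynomial NumberField H58Q

theorem qvn : QvnStatement := by
  intro K _ _ v x hx hlt
  obtain ⟨a, b, hb, rfl⟩ := IsFractionRing.div_surjective (𝓞 K) x
  have hb0 : b ≠ 0 := nonZeroDivisors.ne_zero hb
  have ha0 : a ≠ 0 := by
    rintro rfl
    simp at hx
  have hA := FinitePlace.apply_mul_absNorm_pow_eq_one v ha0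
  have hB := FinitePlace.apply_mul_absNorm_pow_eq_one v hb0
  set q : ℝ := (Ideal.absNorm v.maximalIdeal.asIdeal : ℝ) with hq
  set m := multiplicity v.maximalIdeal.asIdeal (Ideal.span {a}) with hm
  set n := multiplicity v.maximalIdeal.asIdeal (Ideal.span {b}) with hn
  have hq1 : 1 < q := by
    have := HeightOneSpectrum.one_lt_absNorm v.maximalIdeal
    rw [hq]
    exact_mod_cast this
  have hq0 : 0 < q := by linarith
  have hdiv : v (algebraMap (𝓞 K) K a / algebraMap (𝓞 K) K b)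
      = v (algebraMap (𝓞 K) K a) / v (algebraMap (𝓞 K) K b) := map_div₀ v _ _
  have hA' : v (algebraMap (𝓞 K) K a) * q ^ m = 1 := hA
  have hB' : v (algebraMap (𝓞 K) K b) * q ^ n = 1 := hB
  have hvb : 0 < v (algebraMap (𝓞 K) K b) := by
    by_contra hcon
    have h0 : v (algebraMap (𝓞 K) K b) = 0 := le_antisymm (not_lt.mp hcon) (apply_nonneg v _)
    rw [h0, zero_mul] at hB'
    exact zero_ne_one hB'
  have hva : 0 < v (algebraMap (𝓞 K) K a) := by
    by_contra hcon
    have h0 : v (algebraMap (𝓞 K) K a) = 0 := le_antisymm (not_lt.mp hcon) (apply_nonneg v _)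
    rw [h0, zero_mul] at hA'
    exact zero_ne_one hA'
  rw [hdiv] at hlt ⊢
  have hlt2 : v (algebraMap (𝓞 K) K a) < v (algebraMap (𝓞 K) K b) := by
    rwa [div_lt_one hvb] at hlt
  have hmn : n < m := by
    by_contra hcon
    have hle : m ≤ n := not_lt.mp hcon
    have hpow : q ^ m ≤ q ^ n := pow_le_pow_right₀ hq1.le hle
    have h1 : v (algebraMap (𝓞 K) K a) * q ^ m < v (algebraMap (𝓞 K) K b) * q ^ n := by
      calc v (algebraMap (𝓞 K) K a) * q ^ m < v (algebraMap (𝓞 K) K b) * q ^ m :=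
            mul_lt_mul_of_pos_right hlt2 (pow_pos hq0 m)
        _ ≤ v (algebraMap (𝓞 K) K b) * q ^ n := mul_le_mul_of_nonneg_left hpow hvb.le
    rw [hA', hB'] at h1
    exact lt_irrefl _ h1
  refine ⟨m - n, Nat.sub_pos_of_lt hmn, ?_⟩
  have hsplit : q ^ m = q ^ (m - n) * q ^ n := by
    rw [← pow_add, Nat.sub_add_cancel hmn.le]
  have hvb' : v (algebraMap (𝓞 K) K b) ≠ 0 := hvb.ne'
  have e1 : v (algebraMap (𝓞 K) K a) * (q ^ (m - n) * q ^ n)
      = v (algebraMap (𝓞 K) K b) * q ^ n := by rw [← hsplit, hA', hB']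
  have e2 : v (algebraMap (𝓞 K) K a) * q ^ (m - n) = v (algebraMap (𝓞 K) K b) := by
    have hne : q ^ n ≠ 0 := (pow_pos hq0 n).ne'
    apply mul_right_cancel₀ hne
    rw [mul_assoc, e1]
  rw [div_mul_eq_mul_div, e2, div_self hvb']

end Pool.Agent.SZT.H86
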